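import Pool.Agent.Helper58.AM.Sheet

set_option autoImplicit false

open Finset

namespace Pool.Agent.Helper71.AM

open Pool.Agent.Helper58.AM

theorem st_STK (h1 : ST_PRC) (h2 : ST_STB) : ST_STK := by
  intro M V _ _ _ _ g U H γ hU
  obtain ⟨k, R, S, -, hRU, hR, hS, hL, hk⟩ := h1 M V g U (Nat.card H)
  have hSH : ∀ s ∈ S, s - k • γ ∈ H := by
    intro s hs
    obtain ⟨L, hLR, hLk, rfl⟩ := hL s hs
    have h3 : ∑ z ∈ L, g z - k • γ = ∑ z ∈ L, (g z - γ) := by
      rw [sum_sub_distrib, sum_const, hLk]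
    rw [h3]
    exact H.sum_mem fun z hz => hU z (hRU (hLR hz))
  have hSc : S.card ≤ Nat.card H := by
    classical
    have h4 : Nat.card S ≤ Nat.card H := by
      refine Nat.card_le_card_of_injective (fun s : S => (⟨s.1 - k • γ, hSH s.1 s.2⟩ : H)) ?_
      intro s t hst
      have h5 := congrArg Subtype.val hst
      exact Subtype.ext (sub_left_injective h5)
    rwa [Nat.card_eq_fintype_card, Fintype.card_coe] at h4
  have hne : S.Nonempty := card_pos.1 (by omega)
  obtain ⟨K, hK, hc | ⟨hlt, hcard⟩⟩ := h2 M S H (k • γ) hne hSH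
  · exact Or.inl ⟨k, R, hRU, hR, by omega, fun x hx => hL _ (hc x hx)⟩
  · right
    rcases hk with hk | ⟨-, hk⟩
    · omega
    · by_cases hn : (U \ R).Nonempty
      · obtain ⟨p, hp⟩ := hn
        exact ⟨k, R, K, g p, hRU, hR, hlt, by omega, fun u hu => hK _ fun s hs => hk u hu p hp s hs⟩
      · rw [not_nonempty_iff_eq_empty] at hn
        refine ⟨k, R, K, 0, hRU, hR, hlt, by omega, fun u hu => ?_⟩
        rw [hn] at hu
        exact absurd hu (notMem_empty u)

end Pool.Agent.Helper71.AM
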